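import Pool.Agent.Work.MP_936a99_lb81.Chain
import Pool.Agent.Work.MP_936a99_q3.All

/-!
# A set with more than `p ^ ((n² + n) / 2)` elements yields a quadratic unipotent
-/

namespace Pool.Agent.Work.MP_936a99_lb81

open Matrix Pool.Agent.Work.MP_936a99_al_h7

section comm

variable {n : ℕ} {K : Type*} [Field K]

/-- **Commutator trick.** -/
theorem commutator_quadratic {x y : SLn n K}
    (h0 : ((y : Matrix (Fin n) (Fin n) K) - 1) * ((x : Matrix (Fin n) (Fin n) K) - 1) = 0)
    (h1 : ((x : Matrix (Fin n) (Fin n) K) - 1) * ((y : Matrix (Fin n) (Fin n) K) - 1) ≠ 0) :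
    (((x * y * x⁻¹ * y⁻¹ : SLn n K) : Matrix (Fin n) (Fin n) K) - 1) ^ 2 = 0 ∧
      ∀ d : K, ((x * y * x⁻¹ * y⁻¹ : SLn n K) : Matrix (Fin n) (Fin n) K) ≠ d • 1 := by
  set X : Matrix (Fin n) (Fin n) K := (x : Matrix (Fin n) (Fin n) K) with hX
  set Y : Matrix (Fin n) (Fin n) K := (y : Matrix (Fin n) (Fin n) K) with hY
  set X' : Matrix (Fin n) (Fin n) K := ((x⁻¹ : SLn n K) : Matrix (Fin n) (Fin n) K) with hX'
  set Y' : Matrix (Fin n) (Fin n) K := ((y⁻¹ : SLn n K) : Matrix (Fin n) (Fin n) K) with hY'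
  have hXX : X * X' = 1 := coe_mul_inv x
  have hYY : Y * Y' = 1 := coe_mul_inv y
  have hXX2 : X' * X = 1 := coe_inv_mul x
  have hYY2 : Y' * Y = 1 := coe_inv_mul y
  set N : Matrix (Fin n) (Fin n) K := X - 1 with hN
  set M : Matrix (Fin n) (Fin n) K := Y - 1 with hM
  have eX : X = 1 + N := by rw [hN]; abel
  have eY : Y = 1 + M := by rw [hM]; abel
  have hE : ((x * y * x⁻¹ * y⁻¹ : SLn n K) : Matrix (Fin n) (Fin n) K) - 1
      = N * M * (X' * Y') := by
    simp only [Matrix.SpecialLinearGroup.coe_mul]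
    rw [← hX, ← hY, ← hX', ← hY']
    have h2 : X * Y = Y * X + N * M := by
      have : X * Y = Y * X + N * M - M * N := by
        rw [eX, eY]
        noncomm_ring
      rw [this, h0, sub_zero]
    rw [h2, Matrix.add_mul, Matrix.add_mul, Matrix.mul_assoc Y X X', hXX, Matrix.mul_one, hYY,
      Matrix.mul_assoc (N * M) X' Y', add_sub_cancel_left]
  have hYN : Y' * N = N := by
    have h2 : Y * N = N := by rw [eY, Matrix.add_mul, Matrix.one_mul, h0, add_zero]
    calc Y' * N = Y' * (Y * N) := by rw [h2]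
      _ = N := by rw [← Matrix.mul_assoc, hYY2, Matrix.one_mul]
  have hXN : X' * N = N * X' := by
    have h2 : X * N = N * X := by
      rw [eX]
      noncomm_ring
    calc X' * N = X' * (N * X) * X' := by
          rw [Matrix.mul_assoc, Matrix.mul_assoc N X X', hXX, Matrix.mul_one]
      _ = N * X' := by rw [← h2, ← Matrix.mul_assoc X' X N, hXX2, Matrix.one_mul]
  have hsq : (N * M * (X' * Y')) * (N * M * (X' * Y')) = 0 := by
    have h2 : (N * M * (X' * Y')) * (N * M * (X' * Y'))
        = N * (M * (X' * (Y' * N))) * (M * (X' * Y')) := by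
      simp only [Matrix.mul_assoc]
    rw [h2, hYN, hXN, ← Matrix.mul_assoc M N X', h0, Matrix.zero_mul, Matrix.mul_zero,
      Matrix.zero_mul]
  refine ⟨by rw [hE, pow_two, hsq], ?_⟩
  intro d hd
  rw [hd] at hE
  have h3 : (d - 1) • (1 : Matrix (Fin n) (Fin n) K) = N * M * (X' * Y') := by
    rw [sub_smul, one_smul, hE]
  have h4 : N * M = 0 := by
    have h5 : (d - 1) • (N * M * (X' * Y')) = 0 := by
      have h6 : ((d - 1) • (1 : Matrix (Fin n) (Fin n) K)) * (N * M * (X' * Y')) = 0 := by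
        rw [h3, hsq]
      rwa [Matrix.smul_mul, Matrix.one_mul] at h6
    have h7 : N * M * (X' * Y') = 0 := by
      rcases smul_eq_zero.1 h5 with h8 | h8
      · rw [← h3, h8, zero_smul]
      · exact h8
    have h9 : (X' * Y') * (Y * X) = 1 := by
      rw [Matrix.mul_assoc, ← Matrix.mul_assoc Y', hYY2, Matrix.one_mul, hXX2]
    calc N * M = (N * M * (X' * Y')) * (Y * X) := by
          rw [Matrix.mul_assoc (N * M), h9, Matrix.mul_one]
      _ = 0 := by rw [h7, Matrix.zero_mul]
  exact h1 h4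

end comm

section pigeon

variable {n : ℕ}

/-- transpose -/
def tr {K : Type*} [Field K] (g : SLn n K) : SLn n K :=
  ⟨(g : Matrix (Fin n) (Fin n) K)ᵀ, by rw [Matrix.det_transpose]; exact g.2⟩

theorem tr_coe {K : Type*} [Field K] (g : SLn n K) :
    (tr g : Matrix (Fin n) (Fin n) K) = (g : Matrix (Fin n) (Fin n) K)ᵀ := rfl

theorem tr_inj {K : Type*} [Field K] : Function.Injective (tr : SLn n K → SLn n K) := by
  intro g h hgh
  apply Subtype.ext
  have h1 := congrArg (fun z : SLn n K => (z : Matrix (Fin n) (Fin n) K)ᵀ) hgh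
  simpa [tr_coe] using h1

theorem tr_mul {K : Type*} [Field K] (g h : SLn n K) : tr (g * h) = tr h * tr g := by
  apply Subtype.ext
  rw [tr_coe, Matrix.SpecialLinearGroup.coe_mul, Matrix.SpecialLinearGroup.coe_mul,
    Matrix.transpose_mul, tr_coe, tr_coe]

theorem tr_inv {K : Type*} [Field K] (g : SLn n K) : tr g⁻¹ = (tr g)⁻¹ := by
  rw [eq_inv_iff_mul_eq_one, ← tr_mul, mul_inv_cancel]
  apply Subtype.ext
  rw [tr_coe, Matrix.SpecialLinearGroup.coe_one, Matrix.transpose_one]

theorem exists_pair {p : ℕ} [hp : Fact p.Prime] (B : Finset (SLn n (ZMod p)))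
    (hB : p ^ (n ^ 2 + n) < B.card ^ 2) :
    ∃ x y : SLn n (ZMod p), (∃ g ∈ B, ∃ g' ∈ B, x = g * g'⁻¹) ∧ (∃ g ∈ B, ∃ g' ∈ B, y = g⁻¹ * g') ∧
      ((y : Matrix (Fin n) (Fin n) (ZMod p)) - 1) * ((x : Matrix (Fin n) (Fin n) (ZMod p)) - 1) = 0
      ∧ ((x : Matrix (Fin n) (Fin n) (ZMod p)) - 1)
        * ((y : Matrix (Fin n) (Fin n) (ZMod p)) - 1) ≠ 0 := by
  classical
  by_contra hcon
  push Not at hcon
  rcases Nat.eq_zero_or_pos n with hn | hn
  · subst hn
    have h1 : B.card ≤ 1 := Finset.card_le_one.2 fun a _ b _ => Subtype.ext (Subsingleton.elim _ _)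
    have h2 : B.card ^ 2 ≤ 1 := by
      calc B.card ^ 2 ≤ 1 ^ 2 := Nat.pow_le_pow_left h1 2
        _ = 1 := one_pow 2
    simp at hB
    omega
  let o1 : ℕ → Fin n := fun j => if h : j < n then ⟨j, h⟩ else ⟨0, hn⟩
  let o2 : ℕ → Fin n := fun j => if h : j < n then ⟨n - 1 - j, by omega⟩ else ⟨0, hn⟩
  have ho1 : ∀ k : Fin n, ∃ j < n, o1 j = k := fun k => ⟨k, k.2, by simp [o1]⟩
  have ho2 : ∀ k : Fin n, ∃ j < n, o2 j = k := by
    intro k
    refine ⟨n - 1 - k, by omega, ?_⟩
    have h1 : n - 1 - (k : ℕ) < n := by omega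
    simp only [o2, dif_pos h1]
    apply Fin.ext
    have := k.2
    simp only
    omega
  let T : Finset (SLn n (ZMod p)) := B.image tr
  have hT : T.card = B.card := Finset.card_image_of_injective B tr_inj
  have c1 := card_le B o1 ho1
  have c2 := card_le T o2 ho2
  rw [hT] at c2
  have orth : ∀ i, 1 ≤ i → i ≤ n - 1 → Module.finrank (ZMod p) (ZZ B o1 i)
      + Module.finrank (ZMod p) (ZZ T o2 (n - i)) ≤ n := by
    intro i hi1 hi2
    apply finrank_orth
    intro u hu v hv
    -- generators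
    have gen : ∀ y ∈ FF' B o1 i, ∀ x' ∈ FF' T o2 (n - i), ∀ a b : Fin n → ZMod p,
        (((x' : Matrix (Fin n) (Fin n) (ZMod p)) - 1) *ᵥ b)
          ⬝ᵥ (((y : Matrix (Fin n) (Fin n) (ZMod p)) - 1) *ᵥ a) = 0 := by
      rintro y ⟨hy1, hy2⟩ x' ⟨⟨t, ht, t', ht', rfl⟩, hx2⟩ a b
      obtain ⟨g, hg, rfl⟩ := Finset.mem_image.1 ht
      obtain ⟨g', hg', rfl⟩ := Finset.mem_image.1 ht'
      have e1 : (tr g)⁻¹ * tr g' = tr (g' * g⁻¹) := by rw [tr_mul, tr_inv]
      rw [e1] at hx2 ⊢
      set x := g' * g⁻¹ with hx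
      have hMN : ((y : Matrix (Fin n) (Fin n) (ZMod p)) - 1)
          * ((x : Matrix (Fin n) (Fin n) (ZMod p)) - 1) = 0 := by
        ext r s
        rw [Matrix.mul_apply, Matrix.zero_apply]
        refine Finset.sum_eq_zero fun k _ => ?_
        by_cases hk : (k : ℕ) < i
        · have h1 := congrFun (hy2 k hk) r
          have h2 : o1 k = k := by simp [o1]
          rw [h2] at h1
          have h3 : ((y : Matrix (Fin n) (Fin n) (ZMod p)) - 1) r k = 0 := by
            simp only [col, Matrix.mulVec_single_one, Matrix.col_apply] at h1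
            rw [Matrix.sub_apply, h1, Matrix.one_apply, Pi.single_apply, sub_self]
          rw [h3, zero_mul]
        · have hj : n - 1 - (k : ℕ) < n - i := by have := k.2; omega
          have h1 := congrFun (hx2 (n - 1 - k) hj) s
          have h2 : o2 (n - 1 - k) = k := by
            have h4 : n - 1 - (k : ℕ) < n := by omega
            simp only [o2, dif_pos h4]
            apply Fin.ext
            have := k.2
            simp only
            omega
          rw [h2] at h1
          have h3 : ((x : Matrix (Fin n) (Fin n) (ZMod p)) - 1) k s = 0 := by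
            simp only [col, Matrix.mulVec_single_one, Matrix.col_apply, tr_coe,
              Matrix.transpose_apply] at h1
            rw [Matrix.sub_apply, h1, Matrix.one_apply, Pi.single_apply]
            by_cases hks : k = s
            · simp [hks]
            · simp [hks, Ne.symm hks]
          rw [h3, mul_zero]
      have hNM := hcon x y ⟨g', hg', g, hg, rfl⟩ hy1 hMN
      have e2 : ((tr x : SLn n (ZMod p)) : Matrix (Fin n) (Fin n) (ZMod p)) - 1
          = ((x : Matrix (Fin n) (Fin n) (ZMod p)) - 1)ᵀ := by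
        rw [Matrix.transpose_sub, Matrix.transpose_one, tr_coe]
      rw [e2, Matrix.mulVec_transpose, ← Matrix.dotProduct_mulVec, Matrix.mulVec_mulVec, hNM,
        Matrix.zero_mulVec, dotProduct_zero]
    unfold ZZ at hu hv
    induction hu using Submodule.span_induction with
    | mem u hu =>
      obtain ⟨y, hy, a, rfl⟩ := hu
      induction hv using Submodule.span_induction with
      | mem v hv =>
        obtain ⟨x', hx', b, rfl⟩ := hv
        exact gen y hy x' hx' a b
      | zero => exact zero_dotProduct _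
      | add v w _ _ h1 h2 => rw [add_dotProduct, h1, h2, add_zero]
      | smul c v _ h1 => rw [smul_dotProduct, h1, smul_zero]
    | zero => exact dotProduct_zero _
    | add u w _ _ h1 h2 => rw [dotProduct_add, h1, h2, add_zero]
    | smul c u _ h1 => rw [dotProduct_smul, h1, smul_zero]
  -- summation
  have hle : ∀ Z : Submodule (ZMod p) (Fin n → ZMod p), Module.finrank (ZMod p) Z ≤ n := by
    intro Z
    have := Submodule.finrank_le Z
    rwa [Module.finrank_fin_fun] at this
  obtain ⟨m, rfl⟩ : ∃ m, n = m + 1 := ⟨n - 1, by omega⟩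
  have s1 : (∑ i ∈ Finset.range (m + 1), Module.finrank (ZMod p) (ZZ B o1 i))
      + (∑ i ∈ Finset.range (m + 1), Module.finrank (ZMod p) (ZZ T o2 i))
      ≤ (m + 1) ^ 2 + (m + 1) := by
    rw [Finset.sum_range_succ', Finset.sum_range_succ' (fun i =>
      Module.finrank (ZMod p) (ZZ T o2 i)), ← Finset.sum_range_reflect (fun i =>
      Module.finrank (ZMod p) (ZZ T o2 (i + 1)))]
    have h1 := hle (ZZ B o1 0)
    have h2 := hle (ZZ T o2 0)
    have h3 : (∑ i ∈ Finset.range m, Module.finrank (ZMod p) (ZZ B o1 (i + 1)))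
        + (∑ i ∈ Finset.range m, Module.finrank (ZMod p) (ZZ T o2 (m - 1 - i + 1)))
        ≤ m * (m + 1) := by
      rw [← Finset.sum_add_distrib]
      calc _ ≤ ∑ i ∈ Finset.range m, (m + 1) := by
            refine Finset.sum_le_sum fun i hi => ?_
            have hi' := Finset.mem_range.1 hi
            have h4 := orth (i + 1) (by omega) (by omega)
            have h5 : m + 1 - (i + 1) = m - 1 - i + 1 := by omega
            rwa [h5] at h4
        _ = m * (m + 1) := by simp
    nlinarith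
  have h6 : B.card ^ 2 ≤ p ^ ((m + 1) ^ 2 + (m + 1)) := by
    calc B.card ^ 2 = B.card * B.card := pow_two _
      _ ≤ p ^ (∑ i ∈ Finset.range (m + 1), Module.finrank (ZMod p) (ZZ B o1 i))
          * p ^ (∑ i ∈ Finset.range (m + 1), Module.finrank (ZMod p) (ZZ T o2 i)) :=
        Nat.mul_le_mul c1 c2
      _ ≤ p ^ ((m + 1) ^ 2 + (m + 1)) := by
        rw [← pow_add]
        exact Nat.pow_le_pow_right hp.out.pos s1
  omega

end pigeon

end Pool.Agent.Work.MP_936a99_lb81
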