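import Pool.Agent.Work.MP_936a99_al_h7.Final

/-!
# Counting a set of matrices column by column
-/

namespace Pool.Agent.Work.MP_936a99_lb81

open Matrix Pool.Agent.Work.MP_936a99_al_h7

/-- abstract counting along a chain of coordinates -/
theorem chain_count {α β : Type*} [DecidableEq β] : ∀ (N : ℕ) (φ : ℕ → α → β) (m : ℕ → ℕ)
    (S : Finset α), (∀ s ∈ S, ∀ t ∈ S, (∀ j < N, φ j s = φ j t) → s = t) →
    (∀ i < N, ∀ s0 ∈ S,
      ((S.filter (fun s => ∀ j < i, φ j s = φ j s0)).image (φ i)).card ≤ m i) →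
    S.card ≤ ∏ i ∈ Finset.range N, m i := by
  classical
  intro N
  induction N with
  | zero =>
    intro φ m S h _
    rw [Finset.range_zero, Finset.prod_empty, Finset.card_le_one]
    intro s hs t ht
    exact h s hs t ht (fun j hj => absurd hj (Nat.not_lt_zero j))
  | succ N ih =>
    intro φ m S h1 h2
    rw [Finset.prod_range_succ', mul_comm]
    have h3 : (S.image (φ 0)).card ≤ m 0 := by
      rcases S.eq_empty_or_nonempty with rfl | ⟨s0, hs0⟩
      · simp
      · have := h2 0 (Nat.succ_pos N) s0 hs0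
        rwa [Finset.filter_true_of_mem (fun s _ j hj => absurd hj (Nat.not_lt_zero j))] at this
    have h4 : ∀ b ∈ S.image (φ 0), (S.filter (fun s => φ 0 s = b)).card
        ≤ ∏ i ∈ Finset.range N, m (i + 1) := by
      intro b _
      refine ih (fun j => φ (j + 1)) (fun i => m (i + 1)) _ ?_ ?_
      · intro s hs t ht hst
        rw [Finset.mem_filter] at hs ht
        refine h1 s hs.1 t ht.1 fun j hj => ?_
        rcases j with _ | j
        · rw [hs.2, ht.2]
        · exact hst j (by omega)
      · intro i hi s0 hs0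
        rw [Finset.mem_filter] at hs0
        refine le_trans (Finset.card_le_card ?_) (h2 (i + 1) (by omega) s0 hs0.1)
        intro v hv
        rw [Finset.mem_image] at hv ⊢
        obtain ⟨s, hs, rfl⟩ := hv
        rw [Finset.mem_filter, Finset.mem_filter] at hs
        refine ⟨s, ?_, rfl⟩
        rw [Finset.mem_filter]
        refine ⟨hs.1.1, fun j hj => ?_⟩
        rcases j with _ | j
        · rw [hs.1.2, hs0.2]
        · exact hs.2 j (by omega)
    calc S.card ≤ (∏ i ∈ Finset.range N, m (i + 1)) * (S.image (φ 0)).card :=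
          Finset.card_le_mul_card_image S _ h4
      _ ≤ (∏ i ∈ Finset.range N, m (i + 1)) * m 0 := Nat.mul_le_mul_left _ h3
      _ = m 0 * ∏ i ∈ Finset.range N, m (i + 1) := mul_comm _ _

variable {n : ℕ} {K : Type*} [Field K]

/-- column `j` of `s` -/
def col (s : SLn n K) (j : Fin n) : Fin n → K := (s : Matrix (Fin n) (Fin n) K) *ᵥ Pi.single j 1

/-- elements `g⁻¹ g'`, `g, g' ∈ B`, which fix the first `i` basis vectors in the order `ord` -/
def FF' (B : Finset (SLn n K)) (ord : ℕ → Fin n) (i : ℕ) : Set (SLn n K) :=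
  {y | (∃ g ∈ B, ∃ g' ∈ B, y = g⁻¹ * g') ∧ ∀ j < i, col y (ord j) = Pi.single (ord j) 1}

/-- the span of all `(y - 1) v` -/
def ZZ (B : Finset (SLn n K)) (ord : ℕ → Fin n) (i : ℕ) : Submodule K (Fin n → K) :=
  Submodule.span K {z | ∃ y ∈ FF' B ord i, ∃ v : Fin n → K,
    z = ((y : Matrix (Fin n) (Fin n) K) - 1) *ᵥ v}

theorem coe_inv_mul (g : SLn n K) :
    ((g⁻¹ : SLn n K) : Matrix (Fin n) (Fin n) K) * (g : Matrix (Fin n) (Fin n) K) = 1 := by
  rw [← Matrix.SpecialLinearGroup.coe_mul, inv_mul_cancel, Matrix.SpecialLinearGroup.coe_one]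

theorem card_le {p : ℕ} [hp : Fact p.Prime] (B : Finset (SLn n (ZMod p))) (ord : ℕ → Fin n)
    (hord : ∀ k : Fin n, ∃ j < n, ord j = k) :
    B.card ≤ p ^ (∑ i ∈ Finset.range n, Module.finrank (ZMod p) (ZZ B ord i)) := by
  classical
  rw [← Finset.prod_pow_eq_pow_sum]
  refine chain_count n (fun j s => col s (ord j)) _ B ?_ ?_
  · intro s _ t _ hst
    apply Subtype.ext
    ext a b
    obtain ⟨j, hj, rfl⟩ := hord b
    have h1 := congrFun (hst j hj) a
    simpa [col, Matrix.mulVec_single_one] using h1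
  · intro i hi s0 hs0
    have hcard : p ^ Module.finrank (ZMod p) (ZZ B ord i) = Nat.card (ZZ B ord i) := by
      rw [Module.natCard_eq_pow_finrank (K := ZMod p), Nat.card_zmod]
    rw [hcard]
    -- the map `v ↦ s0⁻¹ v - e`
    let g : (Fin n → ZMod p) → (Fin n → ZMod p) := fun v =>
      ((s0⁻¹ : SLn n (ZMod p)) : Matrix (Fin n) (Fin n) (ZMod p)) *ᵥ v - Pi.single (ord i) 1
    have hg : Function.Injective g := by
      intro v v' h
      have h1 : ((s0⁻¹ : SLn n (ZMod p)) : Matrix (Fin n) (Fin n) (ZMod p)) *ᵥ v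
          = ((s0⁻¹ : SLn n (ZMod p)) : Matrix (Fin n) (Fin n) (ZMod p)) *ᵥ v' :=
        sub_left_injective h
      have h2 := congrArg (fun z => (s0 : Matrix (Fin n) (Fin n) (ZMod p)) *ᵥ z) h1
      simp only [Matrix.mulVec_mulVec, coe_mul_inv, Matrix.one_mulVec] at h2
      exact h2
    have hmem : ∀ v ∈ (B.filter (fun s => ∀ j < i, col s (ord j) = col s0 (ord j))).image
        (fun s => col s (ord i)), g v ∈ ZZ B ord i := by
      intro v hv
      rw [Finset.mem_image] at hv
      obtain ⟨s, hs, rfl⟩ := hv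
      rw [Finset.mem_filter] at hs
      apply Submodule.subset_span
      refine ⟨s0⁻¹ * s, ⟨⟨s0, hs0, s, hs.1, rfl⟩, fun j hj => ?_⟩, Pi.single (ord i) 1, ?_⟩
      · have h1 := hs.2 j hj
        simp only [col] at h1 ⊢
        rw [Matrix.SpecialLinearGroup.coe_mul, ← Matrix.mulVec_mulVec, h1, Matrix.mulVec_mulVec,
          coe_inv_mul, Matrix.one_mulVec]
      · simp only [g, col]
        rw [Matrix.SpecialLinearGroup.coe_mul, Matrix.sub_mulVec, Matrix.one_mulVec,
          Matrix.mulVec_mulVec]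
    have : Fintype (ZZ B ord i) := Fintype.ofFinite _
    rw [Nat.card_eq_fintype_card, ← Finset.card_univ, ← Finset.card_attach]
    refine Finset.card_le_card_of_injOn (fun v => (⟨g v.1, hmem v.1 v.2⟩ : ZZ B ord i))
      (fun v _ => by simp) ?_
    intro v _ v' _ h
    have h1 : g v.1 = g v'.1 := congrArg (Subtype.val) h
    exact Subtype.ext (hg h1)

/-- orthogonal subspaces -/
theorem finrank_orth {Z Z' : Submodule K (Fin n → K)} (h : ∀ u ∈ Z, ∀ v ∈ Z', v ⬝ᵥ u = 0) :
    Module.finrank K Z + Module.finrank K Z' ≤ n := by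
  let D : (Fin n → K) →ₗ[K] Module.Dual K (Fin n → K) :=
    LinearMap.mk₂ K (fun v u => v ⬝ᵥ u) (fun a b c => add_dotProduct a b c)
      (fun c a b => smul_dotProduct c a b) (fun a b c => dotProduct_add a b c)
      (fun c a b => dotProduct_smul c a b)
  have hD : Function.Injective D := by
    intro v v' hv
    funext i
    have h1 := congrArg (fun f => f (Pi.single i 1)) hv
    simpa [D] using h1
  have h1 : Submodule.map D Z' ≤ Z.dualAnnihilator := by
    rintro _ ⟨v, hv, rfl⟩
    rw [Submodule.mem_dualAnnihilator]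
    intro u hu
    exact h u hu v hv
  have h2 := Submodule.finrank_mono h1
  have h3 : Module.finrank K (Submodule.map D Z') = Module.finrank K Z' :=
    (Submodule.equivMapOfInjective D hD Z').finrank_eq.symm
  have h4 := Subspace.finrank_add_finrank_dualAnnihilator_eq Z
  rw [Module.finrank_fin_fun] at h4
  omega

end Pool.Agent.Work.MP_936a99_lb81
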